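import Pool.Agent.Helper67.NX2.DefsB

/-!
Project NX2, module B4b: the cell averages of the weighted indicator function of a set of primes
are bounded, given the Brun-Titchmarsh inequality in residue classes.
-/

set_option autoImplicit false

open Finset
open scoped BigOperators ComplexConjugate

namespace Pool.Agent.Helper67.NX2

open Pool.Agent.Helper57.NX

noncomputable section

/-- `cell_le` from the Brun-Titchmarsh inequality `bt_class` -/
theorem cell_le_of_bt (hbt : ∃ C : ℝ, 0 < C ∧ ∀ a N M c : ℕ, 2 ≤ N → 1 ≤ M → M ^ 2 ≤ N →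
    (((Ico a (a + N)).filter
      (fun p => p.Prime ∧ Nat.Coprime p M ∧ p ≡ c [MOD M])).card : ℝ) ≤
        C * N / (M.totient * Real.log N)) :
    ∃ C : ℝ, 0 < C ∧ ∀ (z : ℕ) (A : Finset ℕ), PrA z A → ∀ b j M : ℕ, 1 ≤ b →
    b ≤ z → 1 ≤ M → M ^ 2 < 2 ^ b → ∀ ρ : ZMod M,
    cell (FA z A) M b j ρ ≤ C * (z / b) * (M / M.totient) := by
  obtain ⟨C, hC, h⟩ := hbt
  refine ⟨C, hC, fun z A hA b j M hb hbz hM hMb ρ => ?_⟩
  have : NeZero M := ⟨by omega⟩
  have h2b : (2 : ℕ) ≤ 2 ^ b := by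
    calc (2 : ℕ) = 2 ^ 1 := by norm_num
      _ ≤ 2 ^ b := Nat.pow_le_pow_right (by norm_num) hb
  have hcnt := h (2 ^ b * j) (2 ^ b) M ρ.val h2b hM hMb.le
  have hlog2 : 0 < Real.log 2 := Real.log_pos (by norm_num)
  have hb0 : (0 : ℝ) < b := by exact_mod_cast hb
  have hM0 : (0 : ℝ) < M := by exact_mod_cast hM
  have hφ0 : (0 : ℝ) < M.totient := by exact_mod_cast Nat.totient_pos.mpr hM
  have h2b0 : (0 : ℝ) < 2 ^ b := by positivity
  have hlz : Real.log ((2 : ℝ) ^ z) = z * Real.log 2 := by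
    rw [Real.log_pow]
  have hlb : Real.log (((2 ^ b : ℕ) : ℝ)) = b * Real.log 2 := by
    push_cast
    rw [Real.log_pow]
  have hbl : bl b j = Ico (2 ^ b * j) (2 ^ b * j + 2 ^ b) := by
    unfold bl
    rw [Nat.mul_add, Nat.mul_one]
  have hsum : ∑ y ∈ bl b j, (if (y : ZMod M) = ρ then FA z A y else 0) ≤
      (((Ico (2 ^ b * j) (2 ^ b * j + 2 ^ b)).filter
        (fun p => p.Prime ∧ Nat.Coprime p M ∧ p ≡ ρ.val [MOD M])).card : ℝ) *
        Real.log ((2 : ℝ) ^ z) := by
    rw [hbl, Finset.card_filter, Nat.cast_sum, Finset.sum_mul]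
    refine Finset.sum_le_sum fun y _ => ?_
    have hnn : 0 ≤ Real.log ((2 : ℝ) ^ z) := by rw [hlz]; positivity
    by_cases h1 : (y : ZMod M) = ρ
    · rw [if_pos h1]
      unfold FA
      by_cases h2 : y ∈ A
      · obtain ⟨hp, -, hy2⟩ := hA y h2
        have hMy : M < y := by
          have h3 : M ^ 2 < y ^ 2 :=
            lt_of_lt_of_le hMb (le_trans (Nat.pow_le_pow_right (by norm_num) hbz) hy2)
          exact lt_of_pow_lt_pow_left₀ 2 (Nat.zero_le _) h3
        have hcop : Nat.Coprime y M := by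
          refine (Nat.Prime.coprime_iff_not_dvd hp).mpr fun hd => ?_
          exact absurd (Nat.le_of_dvd hM hd) (not_le.mpr hMy)
        have hmod : y ≡ ρ.val [MOD M] := by
          rw [← ZMod.natCast_eq_natCast_iff, h1, ZMod.natCast_val, ZMod.cast_id]
        rw [if_pos h2, if_pos ⟨hp, hcop, hmod⟩]
        simp
      · rw [if_neg h2]
        positivity
    · rw [if_neg h1]
      positivity
  unfold cell
  calc (M : ℝ) / 2 ^ b * ∑ y ∈ bl b j, (if (y : ZMod M) = ρ then FA z A y else 0)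
      ≤ (M : ℝ) / 2 ^ b * ((C * ((2 ^ b : ℕ) : ℝ) / (M.totient * Real.log ((2 ^ b : ℕ) : ℝ))) *
          Real.log ((2 : ℝ) ^ z)) := by
        refine mul_le_mul_of_nonneg_left (hsum.trans ?_) (by positivity)
        refine mul_le_mul_of_nonneg_right hcnt ?_
        rw [hlz]; positivity
    _ = C * (z / b) * (M / M.totient) := by
        rw [hlb, hlz]
        push_cast
        field_simp

end

end Pool.Agent.Helper67.NX2
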